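import Mathlib
import Pool.Agent.H590.PL.Stm

/-!
# Area of the unit ball (`S_VK`)
-/

set_option autoImplicit false

open MeasureTheory Filter Topology Set
open scoped BigOperators ENNReal

namespace Pool.Agent.H331.PL

open H590PL

theorem ip_add (v x y : P2) : ip v (x + y) = ip v x + ip v y := by
  simp only [ip, Prod.fst_add, Prod.snd_add]
  ring

theorem ip_neg (v x : P2) : ip v (-x) = -ip v x := by
  simp only [ip, Prod.fst_neg, Prod.snd_neg]
  ring

theorem ip_smul (v x : P2) (r : ℝ) : ip v (r • x) = r * ip v x := by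
  simp only [ip, Prod.smul_fst, Prod.smul_snd, smul_eq_mul]
  ring

theorem ip_zero (v : P2) : ip v 0 = 0 := by
  simp only [ip, Prod.fst_zero, Prod.snd_zero]
  ring

section

variable {κ : Type} [Fintype κ]

/-- the gauge -/
noncomputable def gg (p : ℝ) (v : κ → P2) (x : P2) : ℝ := (∑ k, |ip (v k) x| ^ p) ^ (1 / p)

theorem sum_nn (p : ℝ) (v : κ → P2) (x : P2) : 0 ≤ ∑ k, |ip (v k) x| ^ p :=
  Finset.sum_nonneg fun _ _ => Real.rpow_nonneg (abs_nonneg _) _

theorem gg_zero {p : ℝ} (hp : 1 < p) (v : κ → P2) : gg p v 0 = 0 := by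
  have h0 : (0 : ℝ) < p := by linarith
  have h1 : ∑ k, |ip (v k) 0| ^ p = 0 := by
    apply Finset.sum_eq_zero
    intro k _
    rw [ip_zero, abs_zero, Real.zero_rpow h0.ne']
  rw [gg, h1, Real.zero_rpow (by positivity)]

theorem gg_neg (p : ℝ) (v : κ → P2) (x : P2) : gg p v (-x) = gg p v x := by
  simp only [gg, ip_neg, abs_neg]

theorem gg_add {p : ℝ} (hp : 1 < p) (v : κ → P2) (x y : P2) :
    gg p v (x + y) ≤ gg p v x + gg p v y := by
  simp only [gg, ip_add]
  exact Real.Lp_add_le Finset.univ (fun k => ip (v k) x) (fun k => ip (v k) y) hp.le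

theorem gg_eq {p : ℝ} (hp : 1 < p) {v : κ → P2} (hv : Spans v) {x : P2} (h : gg p v x = 0) :
    x = 0 := by
  have h0 : (0 : ℝ) < p := by linarith
  have h1 : ∑ k, |ip (v k) x| ^ p = 0 := by
    rcases (Real.rpow_eq_zero_iff_of_nonneg (sum_nn p v x)).1 h with ⟨h2, _⟩
    exact h2
  have h2 : ∀ k, ip (v k) x = 0 := by
    intro k
    have h3 := (Finset.sum_eq_zero_iff_of_nonneg
      (fun k _ => Real.rpow_nonneg (abs_nonneg (ip (v k) x)) p)).1 h1 k (Finset.mem_univ k)
    have h4 := ((Real.rpow_eq_zero_iff_of_nonneg (abs_nonneg _)).1 h3).1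
    exact abs_eq_zero.1 h4
  obtain ⟨i, j, hij⟩ := hv
  have hi := h2 i
  have hj := h2 j
  simp only [ip, dt] at hi hj hij
  have e1 : ((v i).1 * (v j).2 - (v i).2 * (v j).1) * x.1 = 0 := by linear_combination (v j).2 * hi - (v i).2 * hj
  have e2 : ((v i).1 * (v j).2 - (v i).2 * (v j).1) * x.2 = 0 := by linear_combination (v i).1 * hj - (v j).1 * hi
  have e3 : x.1 = 0 := (mul_eq_zero.1 e1).resolve_left hij
  have e4 : x.2 = 0 := (mul_eq_zero.1 e2).resolve_left hij
  exact Prod.ext e3 e4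

theorem gg_smul {p : ℝ} (hp : 1 < p) (v : κ → P2) (r : ℝ) (x : P2) :
    gg p v (r • x) ≤ |r| * gg p v x := by
  have h0 : (0 : ℝ) < p := by linarith
  have h1 : ∑ k, |ip (v k) (r • x)| ^ p = |r| ^ p * ∑ k, |ip (v k) x| ^ p := by
    rw [Finset.mul_sum]
    refine Finset.sum_congr rfl fun k _ => ?_
    rw [ip_smul, abs_mul, Real.mul_rpow (abs_nonneg _) (abs_nonneg _)]
  rw [gg, h1, Real.mul_rpow (Real.rpow_nonneg (abs_nonneg _) _) (sum_nn p v x), ← Real.rpow_mul (abs_nonneg _),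
    mul_one_div_cancel h0.ne', Real.rpow_one]
  exact le_rfl

theorem gg_pow {p : ℝ} (hp : 1 < p) (v : κ → P2) (x : P2) : gg p v x ^ p = Ph p v one x := by
  have h0 : (0 : ℝ) < p := by linarith
  rw [gg, ← Real.rpow_mul (sum_nn p v x), one_div_mul_cancel h0.ne', Real.rpow_one, Ph]
  refine Finset.sum_congr rfl fun k _ => ?_
  rw [one, one_mul]

end

theorem VK0 : S_VK := by
  intro κ _ p hp _ v hv
  have h0 : (0 : ℝ) < p := by linarith
  have h1 : {x : P2 | ∑ k, |ip (v k) x| ^ p ≤ 1} = {x : P2 | gg p v x ≤ 1} := by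
    ext x
    have h2 := Real.rpow_le_rpow_iff (sum_nn p v x) (zero_le_one' ℝ) (one_div_pos.2 h0)
    rw [Real.one_rpow] at h2
    exact h2.symm
  rw [h1, measure_le_eq_lt volume (gg_zero hp v) (gg_neg p v) (gg_add hp v) (gg_eq hp hv)
    (gg_smul hp v) 1, measure_lt_one_eq_integral_div_gamma volume (gg_zero hp v) (gg_neg p v) (gg_add hp v)
    (gg_eq hp hv) (gg_smul hp v) h0]
  have h2 : (fun x : P2 => Real.exp (-(gg p v x) ^ p)) = fun x : P2 => Real.exp (-(Ph p v one x)) := by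
    funext x
    rw [gg_pow hp v x]
  have h3 : (Module.finrank ℝ P2 : ℝ) = 2 := by
    have h4 : Module.finrank ℝ P2 = 2 := by
      rw [Module.finrank_prod, Module.finrank_self]
    rw [h4]
    norm_num
  rw [h2, h3]
  rfl

theorem VK (_ : S_IF) : S_VK := VK0

end Pool.Agent.H331.PL
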